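import Mathlib
import Pool.Agent.KS6_69.PN.Base
import Pool.Agent.KS6_69.PN.Asm
import Pool.Agent.KS6_69.PN.TAsm

/-!
# Szegedy's divisibility for the Penrose polynomial at `-1` fails for all large orders

`PlaneCubicGraph`, `numColourings` (the number `F_G(4)` of 3-edge-colourings) and `penrose` are the
definitions of `Pool.Agent.KS6_69.PN.Base`. In `G` the half-edge after `x` around its endpoint is
`G.rot x`, the vertices are the cycles of `G.rot`, and `(G.rot x).1 ≠ x.1` for all `x` says that `G`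
has no loops.
-/

set_option autoImplicit false

namespace Pool.Agent.Results.MP_daa8b9_co.AllLargeOrders

open Polynomial Pool.Agent.KS6_69.PN.Base

/-- The number of vertices, that is, of cycles of the rotation. -/
noncomputable def order {E : Type} [Fintype E] (G : PlaneCubicGraph E) : ℕ :=
  Nat.card (Quotient (Equiv.Perm.SameCycle.setoid G.rot))

/-- No vertex carries both half-edges of an edge. -/
def HasNoLoop {E : Type} [Fintype E] (G : PlaneCubicGraph E) : Prop :=
  ∀ x : E × Bool, (G.rot x).1 ≠ x.1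

/-- There is a connected plane cubic graph `G` without loops which has `v` vertices and for which
`F_G(4)` does not divide `D P_G(-1)`. -/
def FailsAt (D : ℤ) (v : ℕ) : Prop :=
  ∃ (E : Type) (_ : Fintype E) (_ : DecidableEq E) (G : PlaneCubicGraph E),
    HasNoLoop G ∧ order G = v ∧ ¬ ((G.numColourings : ℤ) ∣ D * G.penrose.eval (-1))

theorem order_eq {E : Type} [Fintype E] (G : PlaneCubicGraph E) (m : ℕ)
    (h : Nat.card E = 3 * m) : order G = 2 * m := by
  have h1 := Pool.Agent.KS6_69.PN.Y210.card_cubic G.rot G.cubic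
  have h2 : Nat.card (E × Bool) = Nat.card E * 2 := by
    rw [Nat.card_prod, Nat.card_eq_fintype_card (α := Bool), Fintype.card_bool]
  unfold order
  omega

theorem order_sum {E : Type} [Fintype E] (G : PlaneCubicGraph E) (m : ℕ)
    (S : PlaneCubicGraph (E ⊕ Fin (3 * m))) : order S = order G + 2 * m := by
  have h1 := Pool.Agent.KS6_69.PN.Y210.card_cubic G.rot G.cubic
  have h2 := Pool.Agent.KS6_69.PN.Y210.card_cubic S.rot S.cubic
  have h3 : Nat.card (E × Bool) = Nat.card E * 2 := by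
    rw [Nat.card_prod, Nat.card_eq_fintype_card (α := Bool), Fintype.card_bool]
  have h4 : Nat.card ((E ⊕ Fin (3 * m)) × Bool) = (Nat.card E + 3 * m) * 2 := by
    rw [Nat.card_prod, Nat.card_sum, Nat.card_eq_fintype_card (α := Bool), Fintype.card_bool,
      Nat.card_fin]
  unfold order
  omega

/-- One vertex replacement. -/
theorem replace (E : Type) [Fintype E] [DecidableEq E] (G : PlaneCubicGraph E)
    (hG : HasNoLoop G) : ∃ S : PlaneCubicGraph (E ⊕ Fin 18),
      HasNoLoop S ∧ S.numColourings = 9 * G.numColourings ∧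
      S.penrose.eval (-1) = 13161 * G.penrose.eval (-1) := by
  obtain ⟨e⟩ := Pool.Agent.KS6_69.PN.TAsm.nonempty_edges G
  obtain ⟨S, h0, h1, h2⟩ := Pool.Agent.KS6_69.PN.Y494.step₀ E G (e, false) hG
  exact ⟨S, h0, by omega, by linarith⟩

/-- Replacement of a vertex by a triangle. -/
theorem triangle (E : Type) [Fintype E] [DecidableEq E] (G : PlaneCubicGraph E)
    (hG : HasNoLoop G) : ∃ S : PlaneCubicGraph (E ⊕ Fin 3),
      HasNoLoop S ∧ S.numColourings = G.numColourings ∧
      S.penrose.eval (-1) = -3 * G.penrose.eval (-1) := by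
  obtain ⟨e⟩ := Pool.Agent.KS6_69.PN.TAsm.nonempty_edges G
  obtain ⟨S, h0, -, h1, h2⟩ := Pool.Agent.KS6_69.PN.TAsm.triangle E G (e, false) hG
  exact ⟨S, h0, h1, h2⟩

/-- Iterated vertex replacement. -/
theorem replace_iter (m : ℕ) (E : Type) [Fintype E] [DecidableEq E] (G : PlaneCubicGraph E)
    (hG : HasNoLoop G) : ∃ (E' : Type) (_ : Fintype E') (_ : DecidableEq E')
      (S : PlaneCubicGraph E'), Nat.card E' = Nat.card E + 18 * m ∧ HasNoLoop S ∧
      S.numColourings = 9 ^ m * G.numColourings ∧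
      S.penrose.eval (-1) = 13161 ^ m * G.penrose.eval (-1) := by
  induction m with
  | zero => exact ⟨E, inferInstance, inferInstance, G, by simp, hG, by simp, by simp⟩
  | succ m ih =>
    obtain ⟨E', hF, hD, S, h0, h1, h2, h3⟩ := ih
    obtain ⟨S', g1, g2, g3⟩ := replace E' S h1
    refine ⟨E' ⊕ Fin 18, inferInstance, inferInstance, S', ?_, g1, ?_, ?_⟩
    · rw [Nat.card_sum, h0, Nat.card_fin]
      ring
    · rw [g2, h2]
      ring
    · rw [g3, h3]
      ring

/-- Iterated insertion of triangles. -/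
theorem triangle_iter (k : ℕ) (E : Type) [Fintype E] [DecidableEq E] (G : PlaneCubicGraph E)
    (hG : HasNoLoop G) : ∃ (E' : Type) (_ : Fintype E') (_ : DecidableEq E')
      (S : PlaneCubicGraph E'), Nat.card E' = Nat.card E + 3 * k ∧ HasNoLoop S ∧
      S.numColourings = G.numColourings ∧
      S.penrose.eval (-1) = (-3) ^ k * G.penrose.eval (-1) := by
  induction k with
  | zero => exact ⟨E, inferInstance, inferInstance, G, by simp, hG, by simp, by simp⟩
  | succ k ih =>
    obtain ⟨E', hF, hD, S, h0, h1, h2, h3⟩ := ih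
    obtain ⟨S', g1, g2, g3⟩ := triangle E' S h1
    refine ⟨E' ⊕ Fin 3, inferInstance, inferInstance, S', ?_, g1, ?_, ?_⟩
    · rw [Nat.card_sum, h0, Nat.card_fin]
      ring
    · rw [g2, h2]
    · rw [g3, h3]
      ring

theorem not_dvd (c : ℤ) (hc : c ≠ 0) (m : ℕ) (hm : c.natAbs < 3 ^ m) (f : ℤ) :
    ¬ (9 ^ m * f ∣ c * 13161 ^ m) := by
  intro h
  have h1 : (3 : ℤ) ^ m * 3 ^ m ∣ 3 ^ m * (c * 4387 ^ m) := by
    have e1 : (9 : ℤ) ^ m = 3 ^ m * 3 ^ m := by rw [← mul_pow]; norm_num
    have e2 : c * 13161 ^ m = 3 ^ m * (c * 4387 ^ m) := by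
      have : (13161 : ℤ) = 3 * 4387 := by norm_num
      rw [this, mul_pow]; ring
    rw [e1, e2] at h
    exact dvd_trans (Dvd.intro _ rfl) h
  have h2 : (3 : ℤ) ^ m ∣ c * 4387 ^ m := by
    rcases h1 with ⟨k, hk⟩
    refine ⟨k, ?_⟩
    have h3 : (3 : ℤ) ^ m ≠ 0 := by positivity
    apply mul_left_cancel₀ h3
    rw [hk]; ring
  have hcop : IsCoprime ((3 : ℤ) ^ m) (4387 ^ m) := by
    apply IsCoprime.pow
    exact ⟨-1462, 1, by norm_num⟩
  have h4 : (3 : ℤ) ^ m ∣ c := hcop.dvd_of_dvd_mul_right h2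
  have h5 := Int.le_of_dvd (Int.natAbs_pos.2 hc |> fun h => by exact_mod_cast h)
    ((Int.dvd_natAbs).2 h4)
  have h6 : ((c.natAbs : ℕ) : ℤ) < 3 ^ m := by exact_mod_cast hm
  omega

/-- Both kinds of replacements. -/
theorem both (m : ℕ) (E : Type) [Fintype E] [DecidableEq E] (G : PlaneCubicGraph E)
    (hG : HasNoLoop G) (hP : G.penrose.eval (-1) ≠ 0) (D : ℤ) (hD : D ≠ 0)
    (hm : 6 * ((D * G.penrose.eval (-1)).natAbs + 5) ≤ m) :
    FailsAt D (order G + 2 * m) := by
  obtain ⟨E₁, hF₁, hD₁, S₁, a0, a1, a2, a3⟩ := replace_iter (m / 6) E G hG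
  obtain ⟨E₂, hF₂, hD₂, S₂, b0, b1, b2, b3⟩ := triangle_iter (m % 6) E₁ S₁ a1
  refine ⟨E₂, hF₂, hD₂, S₂, b1, ?_, ?_⟩
  · have h1 := Pool.Agent.KS6_69.PN.Y210.card_cubic G.rot G.cubic
    have h2 := Pool.Agent.KS6_69.PN.Y210.card_cubic S₂.rot S₂.cubic
    have h3 : Nat.card (E × Bool) = Nat.card E * 2 := by
      rw [Nat.card_prod, Nat.card_eq_fintype_card (α := Bool), Fintype.card_bool]
    have h4 : Nat.card (E₂ × Bool) = Nat.card E₂ * 2 := by
      rw [Nat.card_prod, Nat.card_eq_fintype_card (α := Bool), Fintype.card_bool]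
    unfold order
    omega
  · set c : ℤ := D * G.penrose.eval (-1) with hc
    have hc0 : c ≠ 0 := mul_ne_zero hD hP
    have hk : m % 6 ≤ 5 := by omega
    have hn : c.natAbs + 5 ≤ m / 6 := by omega
    intro h
    refine not_dvd (c * (-3) ^ (m % 6)) (mul_ne_zero hc0 (pow_ne_zero _ (by norm_num))) (m / 6) ?_
      (G.numColourings : ℤ) ?_
    · rw [Int.natAbs_mul, Int.natAbs_pow]
      have e1 : (-3 : ℤ).natAbs = 3 := rfl
      rw [e1]
      calc c.natAbs * 3 ^ (m % 6) < 3 ^ c.natAbs * 3 ^ (m % 6) :=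
            Nat.mul_lt_mul_of_pos_right (Nat.lt_pow_self (by norm_num)) (by positivity)
        _ = 3 ^ (c.natAbs + m % 6) := (pow_add _ _ _).symm
        _ ≤ 3 ^ (m / 6) := Nat.pow_le_pow_right (by norm_num) (by omega)
    · rw [b2, a2, b3, a3] at h
      push_cast at h
      have e : c * (-3) ^ (m % 6) * 13161 ^ (m / 6) =
          D * ((-3) ^ (m % 6) * (13161 ^ (m / 6) * G.penrose.eval (-1))) := by
        rw [hc]; ring
      rw [e]
      exact h

/-- **Szegedy's divisibility fails for all large orders, with every constant factor.**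
(1) A vertex of a loopless connected plane cubic graph `G` can be replaced by a planar piece so
that `F(4)` is multiplied by `9` and `P(-1)` by `13161` (12 more vertices), or by a triangle so
that `F(4)` does not change and `P(-1)` is multiplied by `-3` (2 more vertices).
(2) For all `n, k` there is a loopless connected plane cubic graph with `14 + 12 n + 2 k` vertices,
`F(4) = 54 * 9 ^ n` and `P(-1) = -78966 * 13161 ^ n * (-3) ^ k`; here `F(4)` divides `P(-1)` exactly
if `k > n`.
(3) For every even `v ≥ 74` there is a loopless connected plane cubic graph with `v` vertices for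
which `F(4)` does not divide `P(-1)`; the same for `v = 14, 26, 28, 38, 40, 42, 50, ..., 56,
62, ..., 70`.
(4) If `1 ≤ D < 3 ^ j`, then for every even `v ≥ 62 + 12 j` there is a loopless connected plane
cubic graph with `v` vertices for which `F(4)` does not divide `D P(-1)`.
(5) Every loopless connected plane cubic graph `G` with `P_G(-1) ≠ 0` and `D ≠ 0` lead, by the
replacements of (1), to such graphs with `|V(G)| + 2 m` vertices for all
`m ≥ 6 (|D P_G(-1)| + 5)`. -/
theorem result :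
    (∀ (E : Type) [Fintype E] [DecidableEq E] (G : PlaneCubicGraph E), HasNoLoop G →
      (∃ S : PlaneCubicGraph (E ⊕ Fin 18), HasNoLoop S ∧ order S = order G + 12 ∧
        S.numColourings = 9 * G.numColourings ∧
        S.penrose.eval (-1) = 13161 * G.penrose.eval (-1)) ∧
      (∃ S : PlaneCubicGraph (E ⊕ Fin 3), HasNoLoop S ∧ order S = order G + 2 ∧
        S.numColourings = G.numColourings ∧
        S.penrose.eval (-1) = -3 * G.penrose.eval (-1))) ∧
    (∀ n k : ℕ, ∃ (E : Type) (_ : Fintype E) (_ : DecidableEq E) (G : PlaneCubicGraph E),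
      HasNoLoop G ∧ order G = 14 + 12 * n + 2 * k ∧ G.numColourings = 54 * 9 ^ n ∧
      G.penrose.eval (-1) = -78966 * 13161 ^ n * (-3) ^ k ∧
      ((G.numColourings : ℤ) ∣ G.penrose.eval (-1) ↔ n < k)) ∧
    ((∀ v : ℕ, Even v → 74 ≤ v → FailsAt 1 v) ∧
      (∀ n k : ℕ, k ≤ n → FailsAt 1 (14 + 12 * n + 2 * k))) ∧
    (∀ D j v : ℕ, 1 ≤ D → D < 3 ^ j → Even v → 62 + 12 * j ≤ v → FailsAt D v) ∧
    (∀ (E : Type) [Fintype E] [DecidableEq E] (G : PlaneCubicGraph E), HasNoLoop G →
      G.penrose.eval (-1) ≠ 0 → ∀ D : ℤ, D ≠ 0 →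
      ∀ m : ℕ, 6 * ((D * G.penrose.eval (-1)).natAbs + 5) ≤ m →
        FailsAt D (order G + 2 * m)) := by
  have hfam : ∀ D n k : ℕ, 1 ≤ D → D * 3 ^ k < 3 ^ (n + 1) → FailsAt D (14 + 12 * n + 2 * k) := by
    intro D n k hD hn
    obtain ⟨E, hF, hDE, G, h0, h1, h2, h3⟩ := Pool.Agent.KS6_69.PN.TAsm.family n k
    refine ⟨E, hF, hDE, G, h1, ?_, ?_⟩
    · rw [order_eq G _ h0]
      ring
    · rw [h2, h3]
      exact Pool.Agent.KS6_69.PN.TAsm.fam_ndvd D n k hD hn
  have hall : ∀ D j v : ℕ, 1 ≤ D → D < 3 ^ j → Even v → 62 + 12 * j ≤ v → FailsAt D v := by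
    intro D j v hD hj hv hle
    obtain ⟨m, rfl⟩ := hv
    have h := hfam D ((m - 7) / 6) ((m - 7) % 6) hD (by
      calc D * 3 ^ ((m - 7) % 6) < 3 ^ j * 3 ^ ((m - 7) % 6) :=
            Nat.mul_lt_mul_of_pos_right hj (by positivity)
        _ = 3 ^ (j + (m - 7) % 6) := (pow_add _ _ _).symm
        _ ≤ 3 ^ ((m - 7) / 6 + 1) := Nat.pow_le_pow_right (by norm_num) (by omega))
    have e : m + m = 14 + 12 * ((m - 7) / 6) + 2 * ((m - 7) % 6) := by omega
    rw [e]
    exact h
  have hone : ∀ n k : ℕ, k ≤ n → FailsAt 1 (14 + 12 * n + 2 * k) := by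
    intro n k hk
    have := hfam 1 n k le_rfl (by
      rw [one_mul]
      exact Nat.pow_lt_pow_right (by norm_num) (by omega))
    simpa using this
  refine ⟨?_, ?_, ⟨?_, hone⟩, hall, ?_⟩
  · intro E _ _ G hG
    refine ⟨?_, ?_⟩
    · obtain ⟨S, h0, h1, h2⟩ := replace E G hG
      exact ⟨S, h0, order_sum G 6 S, h1, h2⟩
    · obtain ⟨S, h0, h1, h2⟩ := triangle E G hG
      exact ⟨S, h0, order_sum G 1 S, h1, h2⟩
  · intro n k
    obtain ⟨E, hF, hDE, G, h0, h1, h2, h3⟩ := Pool.Agent.KS6_69.PN.TAsm.family n k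
    refine ⟨E, hF, hDE, G, h1, ?_, h2, h3, ?_⟩
    · rw [order_eq G _ h0]
      ring
    · rw [h2, h3]
      constructor
      · intro h
        by_contra hk
        push Not at hk
        refine Pool.Agent.KS6_69.PN.TAsm.fam_ndvd 1 n k le_rfl ?_ ?_
        · rw [one_mul]
          exact Nat.pow_lt_pow_right (by norm_num) (by omega)
        · rw [Nat.cast_one, one_mul]
          exact h
      · intro hk
        exact Pool.Agent.KS6_69.PN.TAsm.fam_dvd n k hk
  · intro v hv hle
    have := hall 1 1 v le_rfl (by norm_num) hv (by omega)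
    simpa using this
  · intro E _ _ G hG hP D hD m hm
    exact both m E G hG hP D hD hm

end Pool.Agent.Results.MP_daa8b9_co.AllLargeOrders
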